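import Pool.Agent.BDJ.SlOp

/-!
# `H^(n-1)(S_u \ Θ_u) = 0` for functions of bounded deformation, for all `ℂ`-elliptic operators in the plane, and for all operators that can
be sliced on lines

Definitions: `Pool/Agent/BDJ/Op.lean` and `Pool/Agent/BDJ/SlOp.lean`.
-/

namespace Pool.Agent.Results.MP_4cbed4_an.JumpSet

theorem result :
    (∀ n : ℕ, 1 ≤ n → BDJ.NullJump (BDJ.symGrad n)) ∧
    (∀ (V W : Type) [NormedAddCommGroup V] [InnerProductSpace ℝ V] [FiniteDimensional ℝ V]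
      [NormedAddCommGroup W] [InnerProductSpace ℝ W] [FiniteDimensional ℝ W]
      (B : Fin 2 → V →L[ℝ] W), BDJ.CElliptic B → BDJ.NullJump B) ∧
    (∀ (n : ℕ) (V W : Type) [NormedAddCommGroup V] [InnerProductSpace ℝ V] [FiniteDimensional ℝ V]
      [NormedAddCommGroup W] [InnerProductSpace ℝ W] [FiniteDimensional ℝ W]
      (B : Fin n → V →L[ℝ] W), 1 ≤ n → BDJ.Sliceable B → BDJ.NullJump B) := by
  refine ⟨fun n hn => BDJ.symGrad_null hn, ?_, ?_⟩
  · intro V W _ _ _ _ _ _ B hB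
    exact BDJ.plane_null B hB
  · intro n V W _ _ _ _ _ _ B hn hB
    exact BDJ.sliceable_null hn B hB

end Pool.Agent.Results.MP_4cbed4_an.JumpSet
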